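import Mathlib

set_option autoImplicit false

namespace Pool.Agent.H346R2

/-- If `X p ≡ c (mod q)` and the point `c/q + X δ/q` (`δ = q y - p`) lies strictly inside
`(w/M, (w+1)/M)`, then so does the fractional part of `X y`.  The hypotheses are scaled by `q M`. -/
theorem hit_of (M q : ℕ) (hM : 0 < M) (hq : 0 < q) (w : ℕ) (hw : w < M) (y : ℝ) (p : ℤ)
    (X : ℕ) (c : ℤ) (hc : (X : ℤ) * p ≡ c [ZMOD (q : ℤ)])
    (h1 : (w : ℝ) * q < c * M + X * ((q * y - p) * M))
    (h2 : (c : ℝ) * M + X * ((q * y - p) * M) < (w + 1) * q) :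
    (w : ℝ) / M < Int.fract (X * y) ∧ Int.fract (X * y) < (w + 1) / M := by
  obtain ⟨m, hm⟩ := hc.symm.dvd
  -- X * p - c = q * m
  have hMr : (0 : ℝ) < M := by exact_mod_cast hM
  have hqr : (0 : ℝ) < q := by exact_mod_cast hq
  have hm' : (X : ℝ) * p - c = q * m := by exact_mod_cast hm
  set z : ℝ := (c * M + X * ((q * y - p) * M)) / (q * M) with hz
  have hXy : (X : ℝ) * y = m + z := by
    rw [hz]
    field_simp
    linear_combination hm'
  have hz1 : (w : ℝ) / M < z := by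
    rw [hz, div_lt_div_iff₀ hMr (by positivity)]
    nlinarith
  have hz2 : z < (w + 1) / M := by
    rw [hz, div_lt_div_iff₀ (by positivity) hMr]
    nlinarith
  have hz0 : 0 ≤ z := le_of_lt (lt_of_le_of_lt (by positivity) hz1)
  have hz3 : z < 1 := lt_of_lt_of_le hz2 (by
    rw [div_le_one hMr]; exact_mod_cast hw)
  have hfr : Int.fract ((X : ℝ) * y) = z := by
    rw [hXy, Int.fract_intCast_add, Int.fract_eq_self.2 ⟨hz0, hz3⟩]
  rw [hfr]
  exact ⟨hz1, hz2⟩

/-- In every window of `q` consecutive integers there is one with a prescribed residue of `X p`. -/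
theorem exists_residue (q : ℕ) (hq : 0 < q) (p : ℤ) (hcop : IsCoprime p (q : ℤ)) (a : ℕ) (c : ℤ) :
    ∃ X : ℕ, a + 1 ≤ X ∧ X ≤ a + q ∧ (X : ℤ) * p ≡ c [ZMOD (q : ℤ)] := by
  obtain ⟨s, t, hst⟩ := hcop
  have hq' : (0 : ℤ) < q := by exact_mod_cast hq
  set r : ℤ := c * s
  have hr : r * p ≡ c [ZMOD (q : ℤ)] := by
    have : r * p = c - (c * t) * q := by
      simp only [r]
      linear_combination c * hst
    rw [this]
    exact (Int.modEq_iff_dvd.2 ⟨c * t, by ring⟩)
  set e : ℤ := (r - (a + 1)) % q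
  have he0 : 0 ≤ e := Int.emod_nonneg _ (by omega)
  have he1 : e < q := Int.emod_lt_of_pos _ hq'
  refine ⟨a + 1 + e.toNat, by omega, by omega, ?_⟩
  have hX : ((a + 1 + e.toNat : ℕ) : ℤ) ≡ r [ZMOD (q : ℤ)] := by
    have h1 : ((a + 1 + e.toNat : ℕ) : ℤ) = a + 1 + e := by
      push_cast
      rw [Int.toNat_of_nonneg he0]
    rw [h1]
    have h2 : e ≡ r - (a + 1) [ZMOD (q : ℤ)] := Int.mod_modEq _ _
    calc (a : ℤ) + 1 + e ≡ a + 1 + (r - (a + 1)) [ZMOD (q : ℤ)] := Int.ModEq.add_left _ h2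
      _ = r := by ring
  exact (hX.mul_right p).trans hr

theorem key_pos (B M q : ℕ) (hB : 3 ≤ B) (hM : 2 ≤ M) (hq1 : 1 ≤ q) (hqM : q ≤ M)
    (w : ℕ) (hw : w < M) (y : ℝ) (hy : Irrational y) (p : ℤ) (hcop : IsCoprime p (q : ℤ))
    (h0 : 0 < q * y - p) (h1 : q * y - p < 1 / M)
    (hav : ∀ X : ℕ, 1 ≤ X → X ≤ B * (M - 1) →
      ¬ ((w : ℝ) / M < Int.fract (X * y) ∧ Int.fract (X * y) < (w + 1) / M)) :
    q * y - p < 1 / (B * M) := by
  by_contra hcon
  push Not at hcon
  have hMr : (0 : ℝ) < M := by positivity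
  have hBr : (0 : ℝ) < B := by positivity
  have hqr : (0 : ℝ) < q := by positivity
  set E : ℝ := (q * y - p) * M with hE
  have hE0 : 0 < E := by positivity
  have hE1 : E < 1 := by
    rw [lt_div_iff₀ hMr] at h1
    exact h1
  -- irrationality consequences
  have hirr : ∀ m : ℕ, 0 < m → (m : ℝ) * E ≠ 1 := by
    intro m hm hme
    have : Irrational ((m : ℝ) * E) := by
      have h2 : (m : ℝ) * E = ((m * q * M : ℕ) : ℝ) * y - ((m * p * M : ℤ) : ℝ) := by
        rw [hE]; push_cast; ring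
      rw [h2]
      exact (hy.natCast_mul (by positivity)).sub_intCast _
    rw [hme] at this
    exact this.ne_one rfl
  have hBE : 1 < B * E := by
    rcases lt_or_eq_of_le (show 1 ≤ B * E by
      rw [div_le_iff₀ (by positivity)] at hcon
      rw [hE]; nlinarith) with h | h
    · exact h
    · exact absurd h.symm (hirr B (by omega))
  set c : ℕ := q * w / M with hcdef
  set u : ℕ := q * w % M with hudef
  have hcu : q * w = c * M + u := by
    rw [hcdef, hudef]; rw [mul_comm (q * w / M) M]; exact (Nat.div_add_mod _ _).symm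
  have huM : u < M := Nat.mod_lt _ (by omega)
  have hcu' : (w : ℝ) * q = c * M + u := by
    have : ((q * w : ℕ) : ℝ) = ((c * M + u : ℕ) : ℝ) := by rw [hcu]
    push_cast at this
    linarith
  -- Step 1
  set a : ℕ := ⌊(u : ℝ) / E⌋₊ with ha
  obtain ⟨X, hX1, hX2, hX3⟩ := exists_residue q hq1 p hcop a c
  have haE : (a : ℝ) * E ≤ u := by
    have := Nat.floor_le (show 0 ≤ (u : ℝ) / E by positivity)
    rw [← ha] at this
    rwa [le_div_iff₀ hE0] at this
  have haE' : (u : ℝ) < (a + 1) * E := by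
    have := Nat.lt_floor_add_one ((u : ℝ) / E)
    rw [← ha] at this
    rwa [div_lt_iff₀ hE0] at this
  have hXN : B * (M - 1) < X := by
    by_contra hle
    push Not at hle
    apply hav X (by omega) hle
    apply hit_of M q (by omega) (by omega) w hw y p X c hX3
    · rw [← hE, hcu', Int.cast_natCast]
      have h2 : ((a : ℝ) + 1) ≤ X := by exact_mod_cast hX1
      have h3 : ((a : ℝ) + 1) * E ≤ X * E := mul_le_mul_of_nonneg_right h2 hE0.le
      linarith
    · rw [← hE, Int.cast_natCast]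
      have h3 : (X : ℝ) ≤ a + q := by exact_mod_cast hX2
      have h4 : (X : ℝ) * E ≤ (a + q) * E := mul_le_mul_of_nonneg_right h3 hE0.le
      have h5 : q * E < q * 1 := mul_lt_mul_of_pos_left hE1 hqr
      linarith
  have hau : a + q ≥ B * (M - 1) + 1 := by omega
  have hu1 : 1 ≤ u := by
    by_contra hu0
    have hu0' : u = 0 := by omega
    have : a = 0 := by
      rw [ha, hu0']; simp
    have h6 : B * (M - 1) ≥ 3 * (M - 1) := Nat.mul_le_mul_right _ hB
    omega
  have hauB : a + 1 ≤ u * B := by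
    have h7 : (a : ℝ) < u * B := by
      have h8 : (a : ℝ) * E < (u * B) * E := by
        calc (a : ℝ) * E ≤ u := haE
          _ < u * (B * E) := by
              have : (1 : ℝ) ≤ u := by exact_mod_cast hu1
              nlinarith
          _ = (u * B) * E := by ring
      exact lt_of_mul_lt_mul_right h8 hE0.le
    have h9 : a < u * B := by exact_mod_cast h7
    omega
  -- `B * t + 2 ≤ q`
  obtain ⟨t, ht⟩ : ∃ t, u + t + 1 = M := ⟨M - 1 - u, by omega⟩
  have hBt : B * t + 2 ≤ q := by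
    have h10 : M - 1 = u + t := by omega
    rw [h10] at hau
    have h11 : B * (u + t) = u * B + B * t := by ring
    rw [h11] at hau
    omega
  -- bound for E
  have hEb : (B - 1) * E < 1 := by
    have h12 : (B - 1) * (M - 1) ≤ a := by
      have : (B - 1) * (M - 1) + (M - 1) = B * (M - 1) := by
        obtain ⟨B', rfl⟩ : ∃ B', B = B' + 1 := ⟨B - 1, by omega⟩
        simp only [Nat.add_sub_cancel]
        ring
      omega
    have h13 : ((B : ℝ) - 1) * (M - 1) ≤ a := by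
      have : (((B - 1) * (M - 1) : ℕ) : ℝ) ≤ a := by exact_mod_cast h12
      rw [Nat.cast_mul, Nat.cast_sub (by omega), Nat.cast_sub (by omega)] at this
      simpa using this
    have h14 : (u : ℝ) ≤ M - 1 := by
      have : (u : ℝ) + 1 ≤ M := by exact_mod_cast huM
      linarith
    have hM1 : (0 : ℝ) < M - 1 := by
      have : (2 : ℝ) ≤ M := by exact_mod_cast hM
      linarith
    have h15 : ((B : ℝ) - 1) * (M - 1) * E ≤ M - 1 := by
      calc ((B : ℝ) - 1) * (M - 1) * E ≤ a * E := by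
            exact mul_le_mul_of_nonneg_right h13 hE0.le
        _ ≤ u := haE
        _ ≤ M - 1 := h14
    have h16 : ((B : ℝ) - 1) * E ≤ 1 := by
      have h17 : ((B : ℝ) - 1) * E * (M - 1) ≤ 1 * (M - 1) := by linarith
      exact le_of_mul_le_mul_right h17 hM1
    rcases lt_or_eq_of_le h16 with h | h
    · exact h
    · exfalso
      have := hirr (B - 1) (by omega)
      rw [Nat.cast_sub (by omega)] at this
      exact this (by simpa using h)
  -- Step 2
  obtain ⟨X2, hY1, hY2, hY3⟩ := exists_residue q hq1 p hcop 0 (c + 1)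
  have hX2E : (q : ℝ) - 1 - t ≤ X2 * E := by
    by_contra hlt
    push Not at hlt
    have hle : X2 ≤ B * (M - 1) := by
      have h6 : B * (M - 1) ≥ 3 * (M - 1) := Nat.mul_le_mul_right _ hB
      omega
    apply hav X2 (by omega) hle
    have htM : (u : ℝ) + t + 1 = M := by exact_mod_cast ht
    have huM' : (u : ℝ) < M := by exact_mod_cast huM
    apply hit_of M q (by omega) (by omega) w hw y p X2 (c + 1) hY3
    · rw [← hE, hcu']
      have h17 : 0 ≤ (X2 : ℝ) * E := by positivity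
      push_cast
      linarith
    · rw [← hE]
      push_cast
      linarith
  have hqE : ((B : ℝ) - 1) * (q - 1 - t) < q := by
    have h18 : (X2 : ℝ) ≤ q := by
      have : X2 ≤ q := by omega
      exact_mod_cast this
    have hB1 : (0 : ℝ) < (B : ℝ) - 1 := by
      have : (3 : ℝ) ≤ B := by exact_mod_cast hB
      linarith
    calc ((B : ℝ) - 1) * (q - 1 - t) ≤ (B - 1) * (X2 * E) :=
          mul_le_mul_of_nonneg_left hX2E hB1.le
      _ ≤ (B - 1) * (q * E) := by
          apply mul_le_mul_of_nonneg_left _ hB1.le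
          exact mul_le_mul_of_nonneg_right h18 hE0.le
      _ = q * ((B - 1) * E) := by ring
      _ < q * 1 := by exact mul_lt_mul_of_pos_left hEb hqr
      _ = q := mul_one _
  have hBr3 : (3 : ℝ) ≤ B := by exact_mod_cast hB
  have hBtr : (B : ℝ) * t + 2 ≤ q := by exact_mod_cast hBt
  have hq2 : (2 : ℝ) ≤ q := by
    have : (0 : ℝ) ≤ (B : ℝ) * t := by positivity
    linarith
  -- (B-2) q < (B-1)(1+t)
  have h19 : ((B : ℝ) - 2) * q < (B - 1) * (1 + t) := by linarith
  have h20 : (B : ℝ) * ((B - 2) * q) < (B - 1) * (B + (q - 2)) := by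
    calc (B : ℝ) * ((B - 2) * q) < B * ((B - 1) * (1 + t)) := mul_lt_mul_of_pos_left h19 hBr
      _ = (B - 1) * (B + B * t) := by ring
      _ ≤ (B - 1) * (B + (q - 2)) := by
          apply mul_le_mul_of_nonneg_left _ (by linarith)
          linarith
  have h21 : (q : ℝ) * (B ^ 2 - 3 * B + 1) < B ^ 2 - 3 * B + 2 := by linarith
  have h22 : (0 : ℝ) ≤ (B : ℝ) ^ 2 - 3 * B := by
    have : (0 : ℝ) ≤ B * (B - 3) := mul_nonneg hBr.le (by linarith)
    linarith
  have h23 : (2 : ℝ) * (B ^ 2 - 3 * B + 1) ≤ q * (B ^ 2 - 3 * B + 1) :=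
    mul_le_mul_of_nonneg_right hq2 (by linarith)
  linarith

/-- Two-sided version of the key lemma. -/
theorem key (B M q : ℕ) (hB : 3 ≤ B) (hM : 2 ≤ M) (hq1 : 1 ≤ q) (hqM : q ≤ M)
    (w : ℕ) (hw : w < M) (y : ℝ) (hy : Irrational y) (p : ℤ) (hcop : IsCoprime p (q : ℤ))
    (h1 : |q * y - p| < 1 / M)
    (hav : ∀ X : ℕ, 1 ≤ X → X ≤ B * (M - 1) →
      ¬ ((w : ℝ) / M < Int.fract (X * y) ∧ Int.fract (X * y) < (w + 1) / M)) :
    |q * y - p| < 1 / (B * M) := by
  have hMr : (0 : ℝ) < M := by positivity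
  have hne : (q : ℝ) * y - p ≠ 0 := by
    intro h
    have : Irrational ((q : ℝ) * y - p) := (hy.natCast_mul (by positivity)).sub_intCast _
    rw [h] at this
    exact this.ne_zero rfl
  rcases lt_or_gt_of_ne hne with hneg | hpos
  · -- reflect
    have hy' : Irrational (-y) := hy.neg
    have h3 : (q : ℝ) * (-y) - ((-p : ℤ) : ℝ) = -(q * y - p) := by push_cast; ring
    rw [abs_of_neg hneg] at h1 ⊢
    rw [← h3] at h1 ⊢
    refine key_pos B M q hB hM hq1 hqM (M - 1 - w) (by omega) (-y) hy' (-p) hcop.neg_left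
      (by rw [h3]; linarith) h1 ?_
    intro X hX1 hX2 hX3
    apply hav X hX1 hX2
    have hirr : Irrational ((X : ℝ) * y) := hy.natCast_mul (by omega)
    have hfr0 : Int.fract ((X : ℝ) * y) ≠ 0 := by
      intro h0
      rw [Int.fract_eq_iff] at h0
      obtain ⟨_, _, z, hz⟩ := h0
      rw [sub_zero] at hz
      exact hirr ⟨z, by rw [hz]; simp⟩
    have hfr : Int.fract ((X : ℝ) * (-y)) = 1 - Int.fract ((X : ℝ) * y) := by
      rw [mul_neg, Int.fract_neg hfr0]
    rw [hfr] at hX3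
    have hc : ((M - 1 - w : ℕ) : ℝ) = M - 1 - w := by
      rw [Nat.cast_sub (by omega), Nat.cast_sub (by omega)]; simp
    rw [hc] at hX3
    obtain ⟨hX4, hX5⟩ := hX3
    rw [div_lt_iff₀ hMr] at hX4
    rw [lt_div_iff₀ hMr] at hX5
    constructor
    · rw [div_lt_iff₀ hMr]; linarith
    · rw [lt_div_iff₀ hMr]; linarith
  · rw [abs_of_pos hpos] at h1 ⊢
    exact key_pos B M q hB hM hq1 hqM w hw y hy p hcop hpos h1 hav

/-- **Main theorem.**  For every irrational `α`, every expanding factor `B ≥ 3`, every `M ≥ 2` and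
every `w < M`: for infinitely many `n` there is `1 ≤ X ≤ B (M-1)` such that the fractional part of
`X B^n α` lies in the open interval `(w/M, (w+1)/M)`. -/
theorem exists_mul (B M : ℕ) (hB : 3 ≤ B) (hM : 2 ≤ M) (w : ℕ) (hw : w < M) (α : ℝ)
    (hα : Irrational α) (n₀ : ℕ) :
    ∃ n, n₀ ≤ n ∧ ∃ X : ℕ, 1 ≤ X ∧ X ≤ B * (M - 1) ∧
      (w : ℝ) / M < Int.fract (X * ((B : ℝ) ^ n * α)) ∧
      Int.fract (X * ((B : ℝ) ^ n * α)) < (w + 1) / M := by
  by_contra hcon
  push Not at hcon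
  have hMr : (0 : ℝ) < M := by positivity
  have hBr : (0 : ℝ) < B := by positivity
  have hirr : ∀ n : ℕ, Irrational ((B : ℝ) ^ n * α) := by
    intro n
    have := hα.natCast_mul (m := B ^ n) (by positivity)
    simpa using this
  have hav : ∀ n, n₀ ≤ n → ∀ X : ℕ, 1 ≤ X → X ≤ B * (M - 1) →
      ¬ ((w : ℝ) / M < Int.fract (X * ((B : ℝ) ^ n * α)) ∧
        Int.fract (X * ((B : ℝ) ^ n * α)) < (w + 1) / M) := by
    intro n hn X hX1 hX2 h
    exact absurd h.2 (not_lt.2 (hcon n hn X hX1 hX2 h.1))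
  classical
  let S : ℕ → Prop := fun q => 1 ≤ q ∧ q ≤ M ∧ ∃ n, n₀ ≤ n ∧ ∃ p : ℤ,
    |q * ((B : ℝ) ^ n * α) - p| < 1 / M
  have hex : ∃ q, S q := by
    obtain ⟨k, hk0, hk1, hk2⟩ :=
      Real.exists_nat_abs_mul_sub_round_le ((B : ℝ) ^ n₀ * α) (n := M) (by omega)
    refine ⟨k, hk0, hk1, n₀, le_refl _, _, lt_of_le_of_lt hk2 ?_⟩
    apply one_div_lt_one_div_of_lt hMr
    linarith
  set q := Nat.find hex with hqdef
  have hqS : S q := Nat.find_spec hex
  have hmin : ∀ m, m < q → ¬ S m := fun m hm => Nat.find_min hex hm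
  obtain ⟨hq1, hqM, n, hn, p, hp⟩ := hqS
  have hqr : (0 : ℝ) < q := by positivity
  -- coprimality by minimality
  have hcop : ∀ n, n₀ ≤ n → ∀ p : ℤ, |q * ((B : ℝ) ^ n * α) - p| < 1 / M →
      IsCoprime p (q : ℤ) := by
    intro n hn p hp
    by_contra hnc
    rw [Int.isCoprime_iff_gcd_eq_one] at hnc
    set g := Int.gcd p q with hg
    have hg0 : 0 < g := Int.gcd_pos_of_ne_zero_right _ (by omega)
    have hg2 : 2 ≤ g := by omega
    obtain ⟨p', hp'⟩ := Int.gcd_dvd_left (a := p) (b := (q : ℤ))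
    obtain ⟨q', hq'⟩ := Int.gcd_dvd_right (a := p) (b := (q : ℤ))
    rw [← hg] at hp' hq'
    have hq'0 : 0 < q' := by
      by_contra hle
      push Not at hle
      have : (g : ℤ) * q' ≤ 0 := mul_nonpos_of_nonneg_of_nonpos (by positivity) hle
      omega
    obtain ⟨m, rfl⟩ : ∃ m : ℕ, q' = m := ⟨q'.toNat, by omega⟩
    have hqm : q = g * m := by exact_mod_cast hq'
    have hm0 : 0 < m := by omega
    have hmq : m < q := by rw [hqm]; nlinarith
    refine hmin m hmq ⟨hm0, by omega, n, hn, p', ?_⟩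
    have hgr : (2 : ℝ) ≤ g := by exact_mod_cast hg2
    have h5 : (q : ℝ) * ((B : ℝ) ^ n * α) - p = g * (m * ((B : ℝ) ^ n * α) - p') := by
      have h6 : (q : ℝ) = g * m := by exact_mod_cast hqm
      have h7 : (p : ℝ) = g * p' := by rw [hp']; push_cast; ring
      rw [h6, h7]; ring
    rw [h5, abs_mul, abs_of_pos (by linarith : (0 : ℝ) < g)] at hp
    have h8 : 0 ≤ |(m : ℝ) * ((B : ℝ) ^ n * α) - p'| := abs_nonneg _
    nlinarith
  have hall : ∀ j : ℕ, |q * ((B : ℝ) ^ (n + j) * α) - ((B ^ j * p : ℤ) : ℝ)| < 1 / M := by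
    intro j
    induction j with
    | zero => simpa using hp
    | succ j ih =>
      have hk := key B M q hB hM hq1 hqM w hw _ (hirr (n + j)) _
        (hcop (n + j) (by omega) _ ih) ih (hav (n + j) (by omega))
      have h9 : (q : ℝ) * ((B : ℝ) ^ (n + (j + 1)) * α) - ((B ^ (j + 1) * p : ℤ) : ℝ) =
          B * (q * ((B : ℝ) ^ (n + j) * α) - ((B ^ j * p : ℤ) : ℝ)) := by
        push_cast
        ring
      rw [h9, abs_mul, abs_of_pos hBr]
      calc (B : ℝ) * |(q : ℝ) * ((B : ℝ) ^ (n + j) * α) - ((B ^ j * p : ℤ) : ℝ)|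
          < B * (1 / (B * M)) := mul_lt_mul_of_pos_left hk hBr
        _ = 1 / M := by field_simp
  -- growth
  set d : ℝ := |q * ((B : ℝ) ^ n * α) - p| with hd
  have hd0 : 0 < d := by
    rw [hd, abs_pos]
    intro h
    have : Irrational ((q : ℝ) * ((B : ℝ) ^ n * α) - p) :=
      ((hirr n).natCast_mul (by omega)).sub_intCast _
    rw [h] at this
    exact this.ne_zero rfl
  have hgrow : ∀ j : ℕ, (B : ℝ) ^ j * d < 1 / M := by
    intro j
    have h10 := hall j
    have h11 : (q : ℝ) * ((B : ℝ) ^ (n + j) * α) - ((B ^ j * p : ℤ) : ℝ) =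
        (B : ℝ) ^ j * (q * ((B : ℝ) ^ n * α) - p) := by
      push_cast
      ring
    rw [h11, abs_mul, abs_of_pos (by positivity)] at h10
    exact h10
  obtain ⟨j, hj⟩ := pow_unbounded_of_one_lt (1 / M / d)
    (show (1 : ℝ) < B by
      have : (3 : ℝ) ≤ B := by exact_mod_cast hB
      linarith)
  have := hgrow j
  rw [div_lt_iff₀ hd0] at hj
  linarith

/-- A single multiplier works infinitely often (pigeonhole). -/
theorem exists_mul_infinite (B M : ℕ) (hB : 3 ≤ B) (hM : 2 ≤ M) (w : ℕ) (hw : w < M) (α : ℝ)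
    (hα : Irrational α) :
    ∃ X : ℕ, 1 ≤ X ∧ X ≤ B * (M - 1) ∧
      {n : ℕ | (w : ℝ) / M < Int.fract (X * ((B : ℝ) ^ n * α)) ∧
        Int.fract (X * ((B : ℝ) ^ n * α)) < (w + 1) / M}.Infinite := by
  by_contra hcon
  push Not at hcon
  have hfin : (⋃ X ∈ Finset.Icc 1 (B * (M - 1)),
      {n : ℕ | (w : ℝ) / M < Int.fract (X * ((B : ℝ) ^ n * α)) ∧
        Int.fract (X * ((B : ℝ) ^ n * α)) < (w + 1) / M}).Finite := by
    apply Set.Finite.biUnion (Finset.finite_toSet _)
    intro X hX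
    rw [Finset.mem_coe, Finset.mem_Icc] at hX
    exact hcon X hX.1 hX.2
  obtain ⟨N, hN⟩ := hfin.bddAbove
  obtain ⟨n, hn, X, hX1, hX2, h1, h2⟩ := exists_mul B M hB hM w hw α hα (N + 1)
  have : n ≤ N := by
    apply hN
    simp only [Set.mem_iUnion]
    exact ⟨X, Finset.mem_Icc.2 ⟨hX1, hX2⟩, h1, h2⟩
  omega

/-- Every word of length `k` over the digits of base `b` is the base-`b` expansion of an integer. -/
theorem exists_word (b : ℕ) (hb : 2 ≤ b) (k : ℕ) (f : ℕ → ℕ) (hf : ∀ j, j < k → f j < b) :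
    ∃ W : ℕ, W < b ^ k ∧ ∀ j, j < k → W / b ^ (k - 1 - j) % b = f j := by
  induction k with
  | zero => exact ⟨0, by simp, by intro j hj; omega⟩
  | succ k ih =>
    obtain ⟨W, hW, hW2⟩ := ih (fun j hj => hf j (by omega))
    refine ⟨b * W + f k, ?_, ?_⟩
    · have := hf k (by omega)
      rw [pow_succ]
      nlinarith
    · intro j hj
      rcases Nat.lt_succ_iff_lt_or_eq.1 hj with hj' | rfl
      · have h1 : k + 1 - 1 - j = (k - 1 - j) + 1 := by omega
        rw [h1, pow_succ', ← Nat.div_div_eq_div_mul]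
        have h2 : (b * W + f k) / b = W := by
          rw [Nat.mul_add_div (by omega), Nat.div_eq_of_lt (hf k (by omega)), add_zero]
        rw [h2]
        exact hW2 j hj'
      · simp only [Nat.add_sub_cancel, Nat.sub_self, pow_zero, Nat.div_one]
        rw [Nat.mul_add_mod, Nat.mod_eq_of_lt (hf j (by omega))]

/-- Reading the digits from the fractional part. -/
theorem digit_of_fract (b : ℕ) (hb : 2 ≤ b) (k W : ℕ) (z : ℝ)
    (h1 : (W : ℝ) / (b ^ k : ℕ) < Int.fract z) (h2 : Int.fract z < (W + 1) / (b ^ k : ℕ))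
    (j : ℕ) (hj : j < k) :
    ⌊z * (b : ℝ) ^ (1 + j)⌋ % (b : ℤ) = ((W / b ^ (k - 1 - j) % b : ℕ) : ℤ) := by
  have hbk : (0 : ℝ) < (b ^ k : ℕ) := by positivity
  have hbr : (0 : ℝ) < (b : ℝ) := by positivity
  rw [div_lt_iff₀ hbk] at h1
  rw [lt_div_iff₀ hbk] at h2
  -- floor of fract * b^k is W
  have hfl : ⌊Int.fract z * ((b ^ k : ℕ) : ℝ)⌋₊ = W := by
    rw [Nat.floor_eq_iff (by positivity)]
    exact ⟨h1.le, h2⟩
  have hsplit : z * (b : ℝ) ^ (1 + j) = ((⌊z⌋ * b ^ (1 + j) : ℤ) : ℝ) +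
      Int.fract z * (b : ℝ) ^ (1 + j) := by
    conv_lhs => rw [← Int.floor_add_fract z]
    push_cast
    ring
  rw [hsplit, Int.floor_intCast_add]
  have h3 : ⌊Int.fract z * (b : ℝ) ^ (1 + j)⌋ = ((W / b ^ (k - 1 - j) : ℕ) : ℤ) := by
    have h4 : Int.fract z * (b : ℝ) ^ (1 + j) =
        Int.fract z * ((b ^ k : ℕ) : ℝ) / ((b ^ (k - 1 - j) : ℕ) : ℝ) := by
      have h5 : b ^ k = b ^ (1 + j) * b ^ (k - 1 - j) := by
        rw [← pow_add]; congr 1; omega
      rw [h5]
      push_cast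
      field_simp
    have h6 : 0 ≤ Int.fract z * ((b ^ k : ℕ) : ℝ) / ((b ^ (k - 1 - j) : ℕ) : ℝ) := by positivity
    rw [h4, ← Int.natCast_floor_eq_floor h6, Nat.floor_div_natCast, hfl]
  rw [h3]
  have h7 : (⌊z⌋ * (b : ℤ) ^ (1 + j) + ((W / b ^ (k - 1 - j) : ℕ) : ℤ)) % b =
      ((W / b ^ (k - 1 - j) : ℕ) : ℤ) % b := by
    rw [pow_add, pow_one]
    have : ⌊z⌋ * ((b : ℤ) * (b : ℤ) ^ j) + ((W / b ^ (k - 1 - j) : ℕ) : ℤ) =
      ((W / b ^ (k - 1 - j) : ℕ) : ℤ) + b * (⌊z⌋ * (b : ℤ) ^ j) := by ring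
    rw [this, Int.add_mul_emod_self_left]
  rw [h7]
  push_cast
  rfl

/-- **Words in the base-`b` expansions of multiples of an irrational number.**  Let `b ≥ 3`,
`s ≥ 1`, `k ≥ 1`.  For every irrational `x`, every residue `r` and every word `w` of length `k`
there is an integer `1 ≤ X ≤ b^s (b^k - 1)` such that `w` occurs in the base-`b` expansion of `X x`
at infinitely many positions `i ≡ r (mod s)`. -/
theorem word_in_multiple (b : ℕ) (hb : 3 ≤ b) (x : ℝ) (hx : Irrational x) (s : ℕ) (hs : 0 < s)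
    (r : ℕ) (k : ℕ) (hk : 0 < k) (w : Fin k → Fin b) :
    ∃ X : ℕ, 1 ≤ X ∧ X ≤ b ^ s * (b ^ k - 1) ∧
      {i : ℕ | i % s = r % s ∧ ∀ j : Fin k,
        ⌊((X : ℝ) * x) * (b : ℝ) ^ (i + 1 + (j : ℕ))⌋ % (b : ℤ) = (((w j : ℕ)) : ℤ)}.Infinite := by
  obtain ⟨W, hW, hW2⟩ := exists_word b (by omega) k
    (fun j => if h : j < k then ((w ⟨j, h⟩ : Fin b) : ℕ) else 0)
    (by intro j hj; simp only [hj, dite_true]; exact (w ⟨j, hj⟩).2)
  have hB : 3 ≤ b ^ s := le_trans hb (Nat.le_self_pow (by omega) b)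
  have hM : 2 ≤ b ^ k := le_trans (by omega) (Nat.le_self_pow (by omega) b)
  have hα : Irrational ((b : ℝ) ^ (r % s) * x) := by
    have := hx.natCast_mul (m := b ^ (r % s)) (by positivity)
    simpa using this
  obtain ⟨X, hX1, hX2, hX3⟩ := exists_mul_infinite (b ^ s) (b ^ k) hB hM W hW _ hα
  refine ⟨X, hX1, hX2, ?_⟩
  have hinj : Function.Injective (fun n : ℕ => s * n + r % s) := by
    intro m n hmn
    simp only [Nat.add_right_cancel_iff] at hmn
    exact Nat.eq_of_mul_eq_mul_left hs hmn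
  refine (hX3.image hinj.injOn).mono ?_
  rintro i ⟨n, ⟨hn1, hn2⟩, rfl⟩
  refine ⟨?_, ?_⟩
  · show (s * n + r % s) % s = r % s
    rw [Nat.mul_add_mod, Nat.mod_mod]
  · intro j
    have hz : (X : ℝ) * x * (b : ℝ) ^ (s * n + r % s + 1 + (j : ℕ)) =
        (X * (((b ^ s : ℕ) : ℝ) ^ n * ((b : ℝ) ^ (r % s) * x))) * (b : ℝ) ^ (1 + (j : ℕ)) := by
      push_cast
      rw [← pow_mul]
      ring
    simp only [hz]
    rw [digit_of_fract b (by omega) k W _ hn1 hn2 j j.2, hW2 j j.2]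
    simp

end Pool.Agent.H346R2
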