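import Mathlib
import Pool.Agent.H346R2.Mahler

set_option autoImplicit false

namespace Pool.Agent.H346R2

/-- Reduction of a good approximation to a coprime one. -/
theorem reduce_coprime (M q : ℕ) (hq : 0 < q) (y : ℝ) (p : ℤ)
    (h : |q * y - p| < 1 / M) :
    ∃ (g q' : ℕ) (p' : ℤ), 0 < g ∧ q = g * q' ∧ p = g * p' ∧ 0 < q' ∧ IsCoprime p' (q' : ℤ) ∧
      |q' * y - p'| < 1 / M := by
  set g := Int.gcd p q with hg
  have hg0 : 0 < g := Int.gcd_pos_of_ne_zero_right _ (by omega)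
  obtain ⟨p', q', hcop, hp', hq'⟩ := Int.exists_gcd_one (m := p) (n := (q : ℤ)) (by rw [← hg]; exact hg0)
  rw [← hg] at hp' hq'
  have hq'0 : 0 < q' := by
    by_contra hle
    push Not at hle
    have : q' * (g : ℤ) ≤ 0 := mul_nonpos_of_nonpos_of_nonneg hle (by positivity)
    omega
  obtain ⟨m, rfl⟩ : ∃ m : ℕ, q' = m := ⟨q'.toNat, by omega⟩
  have hqm : q = g * m := by rw [mul_comm]; exact_mod_cast hq'
  refine ⟨g, m, p', hg0, hqm, by rw [hp']; ring, by omega, Int.isCoprime_iff_gcd_eq_one.2 hcop, ?_⟩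
  have hgr : (1 : ℝ) ≤ g := by exact_mod_cast hg0
  have h5 : (q : ℝ) * y - p = g * (m * y - p') := by
    have h6 : (q : ℝ) = g * m := by exact_mod_cast hqm
    have h7 : (p : ℝ) = g * p' := by rw [hp']; push_cast; ring
    rw [h6, h7]; ring
  rw [h5, abs_mul, abs_of_pos (by linarith : (0 : ℝ) < g)] at h
  have h8 : 0 ≤ |(m : ℝ) * y - p'| := abs_nonneg _
  nlinarith

/-- **Effective version.**  If no multiplier `1 ≤ X ≤ B (M-1)` hits the interval at the times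
`n, n+1, …, n+J`, then `B^n α` has an extremely good rational approximation with denominator
`q ≤ M`. -/
theorem exists_approx_of_avoid (B M : ℕ) (hB : 3 ≤ B) (hM : 2 ≤ M) (w : ℕ) (hw : w < M) (α : ℝ)
    (hα : Irrational α) (n J : ℕ)
    (hav : ∀ i, n ≤ i → i ≤ n + J → ∀ X : ℕ, 1 ≤ X → X ≤ B * (M - 1) →
      ¬ ((w : ℝ) / M < Int.fract (X * ((B : ℝ) ^ i * α)) ∧
        Int.fract (X * ((B : ℝ) ^ i * α)) < (w + 1) / M)) :
    ∃ (q : ℕ) (p : ℤ), 1 ≤ q ∧ q ≤ M ∧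
      (B : ℝ) ^ (J + 1) * |q * ((B : ℝ) ^ n * α) - p| < 1 := by
  have hMr : (0 : ℝ) < M := by positivity
  have hBr : (0 : ℝ) < B := by positivity
  have hirr : ∀ n : ℕ, Irrational ((B : ℝ) ^ n * α) := by
    intro n
    have := hα.natCast_mul (m := B ^ n) (by positivity)
    simpa using this
  obtain ⟨q₀, hk0, hk1, hk2⟩ :=
    Real.exists_nat_abs_mul_sub_round_le ((B : ℝ) ^ n * α) (n := M) (by omega)
  set p₀ : ℤ := round ((q₀ : ℝ) * ((B : ℝ) ^ n * α))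
  have hk3 : |(q₀ : ℝ) * ((B : ℝ) ^ n * α) - p₀| < 1 / M := by
    refine lt_of_le_of_lt hk2 ?_
    apply one_div_lt_one_div_of_lt hMr
    linarith
  have hall : ∀ j : ℕ, j ≤ J + 1 → ∃ (g q : ℕ) (p : ℤ), 0 < g ∧ 0 < q ∧ q₀ = g * q ∧
      (B ^ j * p₀ : ℤ) = g * p ∧ IsCoprime p (q : ℤ) ∧
      |q * ((B : ℝ) ^ (n + j) * α) - p| < 1 / M := by
    intro j
    induction j with
    | zero =>
      intro _
      obtain ⟨g, q', p', h1, h2, h3, h4, h5, h6⟩ :=
        reduce_coprime M q₀ hk0 ((B : ℝ) ^ n * α) p₀ hk3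
      exact ⟨g, q', p', h1, h4, h2, by simpa using h3, h5, by simpa using h6⟩
    | succ j ih =>
      intro hj
      obtain ⟨g, q, p, h1, h2, h3, h4, h5, h6⟩ := ih (by omega)
      have hqM : q ≤ M := le_trans (by rw [h3]; exact Nat.le_mul_of_pos_left _ h1) hk1
      have hk := key B M q hB hM h2 hqM w hw _ (hirr (n + j)) p h5 h6
        (hav (n + j) (by omega) (by omega))
      have h7 : |(q : ℝ) * ((B : ℝ) ^ (n + (j + 1)) * α) - ((B * p : ℤ) : ℝ)| < 1 / M := by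
        have h9 : (q : ℝ) * ((B : ℝ) ^ (n + (j + 1)) * α) - ((B * p : ℤ) : ℝ) =
            B * (q * ((B : ℝ) ^ (n + j) * α) - p) := by
          push_cast
          ring
        rw [h9, abs_mul, abs_of_pos hBr]
        calc (B : ℝ) * |(q : ℝ) * ((B : ℝ) ^ (n + j) * α) - p|
            < B * (1 / (B * M)) := mul_lt_mul_of_pos_left hk hBr
          _ = 1 / M := by field_simp
      obtain ⟨g', q', p', k1, k2, k3, k4, k5, k6⟩ :=
        reduce_coprime M q h2 _ _ h7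
      refine ⟨g * g', q', p', by positivity, k4, by rw [h3, k2]; ring, ?_, k5, k6⟩
      rw [pow_succ]
      push_cast
      calc (B : ℤ) ^ j * B * p₀ = B * (B ^ j * p₀) := by ring
        _ = B * (g * p) := by rw [h4]
        _ = g * (B * p) := by ring
        _ = g * (g' * p') := by rw [k3]
        _ = g * g' * p' := by ring
  obtain ⟨g, q, p, h1, h2, h3, h4, h5, h6⟩ := hall (J + 1) le_rfl
  refine ⟨q₀, p₀, hk0, hk1, ?_⟩
  have h10 : (B : ℝ) ^ (J + 1) * |q₀ * ((B : ℝ) ^ n * α) - p₀| =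
      g * |q * ((B : ℝ) ^ (n + (J + 1)) * α) - p| := by
    have hgr : (0 : ℝ) < g := by exact_mod_cast h1
    rw [← abs_of_pos (show (0 : ℝ) < (B : ℝ) ^ (J + 1) by positivity), ← abs_mul]
    conv_rhs => rw [← abs_of_pos hgr, ← abs_mul]
    congr 1
    have h3' : (q₀ : ℝ) = g * q := by exact_mod_cast h3
    have h4' : (B : ℝ) ^ (J + 1) * p₀ = g * p := by exact_mod_cast h4
    rw [mul_sub, mul_sub, h4', h3']
    ring
  rw [h10]
  have hgM : (g : ℝ) ≤ M := by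
    have : g ≤ M := le_trans (by rw [h3]; exact Nat.le_mul_of_pos_right _ h2) hk1
    exact_mod_cast this
  have hg0 : (0 : ℝ) < g := by exact_mod_cast h1
  calc (g : ℝ) * |q * ((B : ℝ) ^ (n + (J + 1)) * α) - p| < g * (1 / M) :=
        mul_lt_mul_of_pos_left h6 hg0
    _ ≤ M * (1 / M) := mul_le_mul_of_nonneg_right hgM (by positivity)
    _ = 1 := by field_simp

/-- Liouville's inequality for `√2`. -/
theorem liouville_sqrt_two (Q : ℕ) (hQ : 0 < Q) (p : ℤ) : 1 / (4 * (Q : ℝ)) ≤ |Q * √2 - p| := by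
  by_contra hcon
  push Not at hcon
  have hQr : (1 : ℝ) ≤ Q := by exact_mod_cast hQ
  have hs : √2 ^ 2 = 2 := Real.sq_sqrt (by norm_num)
  have hs0 : 0 < √2 := by positivity
  have hs1 : √2 < 1.42 := by
    rw [Real.sqrt_lt' (by norm_num)]; norm_num
  have h1 : |(Q : ℝ) * √2 - p| < 1 / 4 := by
    refine lt_of_lt_of_le hcon ?_
    apply one_div_le_one_div_of_le (by norm_num)
    linarith
  have h2 : |(Q : ℝ) * √2 + p| ≤ 4 * Q := by
    have h3 : (Q : ℝ) * √2 + p = 2 * (Q * √2) - (Q * √2 - p) := by ring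
    rw [h3]
    calc |2 * ((Q : ℝ) * √2) - (Q * √2 - p)| ≤ |2 * ((Q : ℝ) * √2)| + |Q * √2 - p| := abs_sub _ _
      _ = 2 * (Q * √2) + |Q * √2 - p| := by rw [abs_of_pos (by positivity)]
      _ ≤ 4 * Q := by nlinarith
  have h4 : (1 : ℝ) ≤ |((2 * Q ^ 2 - p ^ 2 : ℤ) : ℝ)| := by
    have h5 : (2 * Q ^ 2 - p ^ 2 : ℤ) ≠ 0 := by
      intro h0
      have h6 : (2 : ℝ) * Q ^ 2 = p ^ 2 := by
        have : ((2 * Q ^ 2 - p ^ 2 : ℤ) : ℝ) = 0 := by rw [h0]; simp
        push_cast at this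
        linarith
      have h7 : √2 = |(p : ℝ) / Q| := by
        rw [← Real.sqrt_sq_eq_abs]
        congr 1
        field_simp
        linarith
      apply irrational_sqrt_two
      refine ⟨|(p : ℚ) / Q|, ?_⟩
      rw [h7]
      push_cast
      rfl
    have := Int.one_le_abs h5
    rw [← Int.cast_abs]
    exact_mod_cast this
  have h8 : |((2 * Q ^ 2 - p ^ 2 : ℤ) : ℝ)| = |(Q : ℝ) * √2 - p| * |(Q : ℝ) * √2 + p| := by
    rw [← abs_mul]
    congr 1
    push_cast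
    nlinarith
  rw [h8] at h4
  have h9 : |(Q : ℝ) * √2 - p| * |(Q : ℝ) * √2 + p| < 1 / (4 * Q) * (4 * Q) := by
    have h10 : 0 ≤ |(Q : ℝ) * √2 - p| := abs_nonneg _
    calc |(Q : ℝ) * √2 - p| * |(Q : ℝ) * √2 + p| ≤ |(Q : ℝ) * √2 - p| * (4 * Q) :=
          mul_le_mul_of_nonneg_left h2 h10
      _ < 1 / (4 * Q) * (4 * Q) := mul_lt_mul_of_pos_right hcon (by positivity)
  rw [one_div_mul_cancel (by positivity)] at h9
  linarith

/-- **Words in multiples of `√2`, with an explicit window.** -/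
theorem word_in_multiple_sqrt_two (k : ℕ) (hk : 0 < k) (w : Fin k → Fin 10) (s : ℕ) (hs : 0 < s)
    (r i₀ : ℕ) :
    ∃ X i : ℕ, 1 ≤ X ∧ X ≤ 10 ^ s * (10 ^ k - 1) ∧ i % s = r % s ∧ i₀ ≤ i ∧
      i ≤ 2 * i₀ + k + 2 * s - 2 ∧
      ∀ j : Fin k, ⌊((X : ℝ) * √2) * (10 : ℝ) ^ (i + 1 + (j : ℕ))⌋ % 10 = (((w j : ℕ)) : ℤ) := by
  obtain ⟨W, hW, hW2⟩ := exists_word 10 (by omega) k
    (fun j => if h : j < k then ((w ⟨j, h⟩ : Fin 10) : ℕ) else 0)
    (by intro j hj; simp only [hj, dite_true]; exact (w ⟨j, hj⟩).2)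
  have hB : 3 ≤ 10 ^ s := le_trans (by norm_num) (Nat.le_self_pow (by omega) 10)
  have hM : 2 ≤ 10 ^ k := le_trans (by norm_num) (Nat.le_self_pow (by omega) 10)
  set α : ℝ := (10 : ℝ) ^ (r % s) * √2 with hαdef
  have hα : Irrational α := by
    have := irrational_sqrt_two.natCast_mul (m := 10 ^ (r % s)) (by positivity)
    simpa using this
  -- choose n with i₀ ≤ s n + r % s < i₀ + s
  have hrs : r % s < s := Nat.mod_lt _ hs
  obtain ⟨n, hn1, hn2⟩ : ∃ n, i₀ ≤ s * n + r % s ∧ s * n + r % s ≤ i₀ + (s - 1) := by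
    rcases le_or_gt i₀ (r % s) with h | h
    · exact ⟨0, by omega, by omega⟩
    · refine ⟨(i₀ - r % s + (s - 1)) / s, ?_, ?_⟩
      · have h1 := Nat.div_add_mod (i₀ - r % s + (s - 1)) s
        have h2 := Nat.mod_lt (i₀ - r % s + (s - 1)) hs
        omega
      · have h1 := Nat.div_add_mod (i₀ - r % s + (s - 1)) s
        omega
  set m := s * n + r % s with hm
  -- J with s (J+1) ≥ m + k + 1 and s J ≤ m + k
  set J := (m + k) / s with hJ
  have hJ1 : s * J ≤ m + k := Nat.mul_div_le _ _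
  have hJ2 : m + k + 1 ≤ s * (J + 1) := by
    have h := Nat.lt_mul_div_succ (m + k) hs
    rw [← hJ] at h
    omega
  by_contra hcon
  push Not at hcon
  have hav : ∀ i, n ≤ i → i ≤ n + J → ∀ X : ℕ, 1 ≤ X → X ≤ 10 ^ s * (10 ^ k - 1) →
      ¬ ((W : ℝ) / (10 ^ k : ℕ) < Int.fract (X * (((10 ^ s : ℕ) : ℝ) ^ i * α)) ∧
        Int.fract (X * (((10 ^ s : ℕ) : ℝ) ^ i * α)) < (W + 1) / (10 ^ k : ℕ)) := by
    intro i hi1 hi2 X hX1 hX2 ⟨h1, h2⟩
    have h3 : s * i ≤ s * (n + J) := Nat.mul_le_mul_left s hi2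
    have h4 : s * n ≤ s * i := Nat.mul_le_mul_left s hi1
    rw [Nat.mul_add] at h3
    obtain ⟨j, hj⟩ := hcon X (s * i + r % s) hX1 hX2
      (by rw [Nat.mul_add_mod, Nat.mod_mod]) (by omega) (by omega)
    apply hj
    have hz : (X : ℝ) * √2 * (10 : ℝ) ^ (s * i + r % s + 1 + (j : ℕ)) =
        (X * (((10 ^ s : ℕ) : ℝ) ^ i * α)) * ((10 : ℕ) : ℝ) ^ (1 + (j : ℕ)) := by
      rw [hαdef]
      push_cast
      rw [← pow_mul]
      ring
    simp only [hz]
    have := digit_of_fract 10 (by omega) k W _ h1 h2 j j.2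
    push_cast at this ⊢
    rw [this]
    have h5 := hW2 j j.2
    simp only [j.2, dite_true] at h5
    exact_mod_cast h5
  obtain ⟨q, p, hq1, hqM, hqp⟩ := exists_approx_of_avoid (10 ^ s) (10 ^ k) hB hM W hW α hα n J hav
  have hQ : (q : ℝ) * (((10 ^ s : ℕ) : ℝ) ^ n * α) = ((q * 10 ^ m : ℕ) : ℝ) * √2 := by
    rw [hαdef, hm]
    push_cast
    rw [← pow_mul]
    ring
  rw [hQ] at hqp
  have hL := liouville_sqrt_two (q * 10 ^ m) (by positivity) p
  have h6 : (((10 ^ s : ℕ) : ℝ)) ^ (J + 1) * (1 / (4 * ((q * 10 ^ m : ℕ) : ℝ))) < 1 :=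
    lt_of_le_of_lt (mul_le_mul_of_nonneg_left hL (by positivity)) hqp
  rw [mul_one_div, div_lt_one (by positivity)] at h6
  have h7 : (10 ^ s) ^ (J + 1) < 4 * (q * 10 ^ m) := by exact_mod_cast h6
  have h8 : 4 * (q * 10 ^ m) ≤ 10 * (10 ^ k * 10 ^ m) := by
    have : q * 10 ^ m ≤ 10 ^ k * 10 ^ m := Nat.mul_le_mul_right _ hqM
    omega
  have h9 : 10 * (10 ^ k * 10 ^ m) = 10 ^ (m + k + 1) := by ring
  have h10 : 10 ^ (m + k + 1) ≤ (10 ^ s) ^ (J + 1) := by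
    rw [← pow_mul]
    exact Nat.pow_le_pow_right (by norm_num) hJ2
  omega

end Pool.Agent.H346R2
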